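import Pool.Agent.H773Z.Hunt.Main

set_option autoImplicit false

open MeasureTheory ProbabilityTheory
open scoped ENNReal NNReal
open Pool.Agent.H773Z.Hunt

/-- There is a real Levy process whose Levy measure does not integrate `min 1 |x|` and which has a
Borel semipolar set that is not polar (it is even hit almost surely from the origin). -/
theorem Pool.Agent.Results.MP_ee1e43_pr.ANotHunt.result :
    ∃ (Ω : Type) (_ : MeasurableSpace Ω) (P : Measure Ω) (_ : IsProbabilityMeasure P)
      (X : ℝ≥0 → Ω → ℝ) (μ : Measure ℝ), HasLevyMeasure P X μ ∧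
      ∫⁻ x, min 1 (ENNReal.ofReal |x|) ∂μ = ∞ ∧
      ∃ A : Set ℝ, MeasurableSet A ∧ Semipolar P X A ∧ ¬ Polar P X A ∧
        ∀ᵐ ω ∂P, hitTime X 0 A ω < ∞ :=
  main_unbounded
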